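import Mathlib
import Pool.Agent.X28.SX.StepL

/-! Dense index sets: any finite family of independent shifts. -/

set_option autoImplicit false

namespace Pool.Agent.X28.SX
open Finset Pool.Agent.H373R2.T7 Pool.Agent.Y877.SX

open Classical in
theorem stepI {ι : Type} [Fintype ι] [DecidableEq ι] (e : ι → ℕ) (he : ∀ i, e i = 1 ∨ e i = 2) (A B C : ℕ) (ε : ℝ)
    (hε : 0 < ε) (hε1 : ε ≤ 1) :
    ∃ K0 : ℕ, ∀ K1 : ℕ, ∃ n0 : ℕ, ∀ n : ℕ, n0 ≤ n →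
    ∀ y : ℕ, K0 * Real.log (Real.log n) ≤ y → y ≤ K1 * Real.log (Real.log n) →
    ∀ J : Finset ℕ, (n : ℝ) ≤ J.card * Real.log n ^ A → ∀ f : ι → ℕ → ℕ, (∀ i, Set.InjOn (f i) J) →
    (∀ i, ∀ j ∈ J, (f i j).Prime ∧ (f i j : ℝ) ≤ n * Real.log n ^ B) →
    ∀ g₀ G : ι → ℕ, (∀ i, primorial y * (g₀ i + G i) ≤ n ^ e i) →
    (∀ i, (n : ℝ) ^ e i ≤ primorial y * G i * Real.log n ^ C) →
    (((Fintype.piFinset (fun i => Icc 1 (G i))).filter (fun g : ι → ℕ =>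
      ((J.filter (fun j => ∀ i, (f i j ^ e i + primorial y * (g₀ i + g i)).Prime)).card : ℝ) <
      (1 - ε) * (J.card / ∏ i, (Vz y * (e i * Real.log n))))).card : ℝ) ≤ ε * ∏ i, (G i : ℝ) := by
  obtain ⟨w⟩ : Nonempty (ι ≃ Fin (Fintype.card ι)) := ⟨Fintype.equivFin ι⟩
  obtain ⟨K0, hK0⟩ := stepL (Fintype.card ι) (fun i => e (w.symm i)) (fun i => he _) A B C ε hε hε1
  refine ⟨K0, fun K1 => ?_⟩
  obtain ⟨n0, hn0⟩ := hK0 K1
  refine ⟨n0, fun n hn y hy1 hy2 J hJ f hi hf g₀ G a1 a2 => ?_⟩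
  have key := hn0 n hn y hy1 hy2 J hJ (fun i => f (w.symm i)) (fun i => hi _) (fun i => hf _) (fun i => g₀ (w.symm i))
    (fun i => G (w.symm i)) (fun i => a1 _) (fun i => a2 _)
  have e1 : ∏ i : Fin (Fintype.card ι), (G (w.symm i) : ℝ) = ∏ i, (G i : ℝ) :=
    Equiv.prod_comp w.symm (fun i => (G i : ℝ))
  have e2 : ∏ i : Fin (Fintype.card ι), (Vz y * (e (w.symm i) * Real.log n)) = ∏ i, (Vz y * (e i * Real.log n)) :=
    Equiv.prod_comp w.symm (fun i => (Vz y * (e i * Real.log n)))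
  rw [e1] at key
  refine le_trans ?_ key
  rw [Nat.cast_le]
  apply card_le_card_of_injOn (fun (g : ι → ℕ) (i : Fin (Fintype.card ι)) => g (w.symm i))
  · intro g hg
    rw [mem_coe, mem_filter, Fintype.mem_piFinset] at hg
    rw [mem_coe, mem_filter, Fintype.mem_piFinset]
    refine ⟨fun i => hg.1 _, ?_⟩
    have h1 := hg.2
    rw [e2]
    refine lt_of_le_of_lt (le_of_eq ?_) h1
    congr 2
    apply filter_congr
    intro j _
    constructor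
    · intro h i
      have := h (w i)
      simpa using this
    · intro h i
      exact h _
  · intro g _ g' _ h
    funext i
    have := congrFun h (w i)
    simpa using this

lemma nth_inj' {a b : ℕ} (ha : 1 ≤ a) (hb : 1 ≤ b)
    (h : Nat.nth Nat.Prime (a - 1) = Nat.nth Nat.Prime (b - 1)) : a = b := by
  have := Nat.nth_injective Nat.infinite_setOfPred_prime h
  omega

lemma nth_two (a : ℕ) : 2 ≤ Nat.nth Nat.Prime a := (Nat.prime_nth_prime _).two_le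

/-- `p_k ≤ n log ^ 2 n` for `k ≤ n` -/
lemma nth_le : ∃ n0 : ℕ, ∀ n : ℕ, n0 ≤ n → ∀ k : ℕ, k ≤ 4 * n →
    (Nat.nth Nat.Prime (k - 1) : ℝ) ≤ n * Real.log n ^ 2 := by
  obtain ⟨n0, h⟩ := nth_le_log
  exact ⟨n0, fun n hn k hk => h n hn (k - 1) (by omega)⟩

/-- `p_{p_k} ≤ n log ^ 5 n` for `k ≤ n` -/
lemma nth_nth_le : ∃ n0 : ℕ, ∀ n : ℕ, n0 ≤ n → ∀ k : ℕ, k ≤ 4 * n →
    (Nat.nth Nat.Prime (Nat.nth Nat.Prime (k - 1) - 1) : ℝ) ≤ n * Real.log n ^ 5 := by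
  obtain ⟨n0, h⟩ := nth_nth_le_log
  exact ⟨n0, fun n hn k hk => h n hn (k - 1) (by omega)⟩

end Pool.Agent.X28.SX
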