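import Mathlib
import Pool.Agent.Y877.SxJ
import Pool.Agent.Y877.SxP

/-! Dense index sets: any number of independent shifts, of both signs. -/

set_option autoImplicit false

namespace Pool.Agent.X28.SX
open Finset Pool.Agent.H373R2.T7 Pool.Agent.Y877.SX

/-- `v + m` or `m - v` -/
def form : Bool → ℕ → ℕ → ℕ
  | true, m, v => m - v
  | false, m, v => v + m

/-- the size of the primes -/
def Bd : Bool → ℕ → ℕ → ℕ → Prop
  | true, _, n, v => v ≤ n
  | false, B, n, v => (v : ℝ) ≤ n * Real.log n ^ B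

/-- the position of the window -/
def Wi : Bool → ℕ → ℕ → ℕ → ℕ → ℕ → Prop
  | true, e, M, n, g0, G => n ^ e ≤ M * g0 ∧ M * (g0 + G) ≤ 2 * n ^ e
  | false, e, M, n, g0, G => M * (g0 + G) ≤ n ^ e

open Classical in
theorem stepB (sg : Bool) (e : ℕ) (he : e = 1 ∨ e = 2) (A B C : ℕ) (ε : ℝ) (hε : 0 < ε) (hε1 : ε ≤ 1) :
    ∃ K0 : ℕ, ∀ K1 : ℕ, ∃ n0 : ℕ, ∀ n : ℕ, n0 ≤ n →
    ∀ y : ℕ, K0 * Real.log (Real.log n) ≤ y → y ≤ K1 * Real.log (Real.log n) →
    ∀ J : Finset ℕ, (n : ℝ) ≤ J.card * Real.log n ^ A → ∀ f : ℕ → ℕ, Set.InjOn f J →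
    (∀ j ∈ J, (f j).Prime ∧ Bd sg B n (f j)) →
    ∀ g0 G : ℕ, Wi sg e (primorial y) n g0 G → (n : ℝ) ^ e ≤ primorial y * G * Real.log n ^ C →
    (((Icc 1 G).filter (fun g => ((J.filter (fun j => (form sg (primorial y * (g0 + g)) (f j ^ e)).Prime)).card : ℝ) <
      (1 - ε) * (J.card / (Vz y * (e * Real.log n))))).card : ℝ) ≤ ε * G := by
  cases sg with
  | false => exact step e he A B C ε hε hε1
  | true =>
    obtain ⟨K0, hK0⟩ := step_neg e he A C ε hε hε1
    refine ⟨K0, fun K1 => ?_⟩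
    obtain ⟨n0, hn0⟩ := hK0 K1
    refine ⟨n0, fun n hn y hy1 hy2 J hJ f hi hf g0 G hw hG => ?_⟩
    have hc : (J.image f).card = J.card := card_image_of_injOn hi
    have key := hn0 n hn y hy1 hy2 (J.image f) (by
      intro s hs
      obtain ⟨j, hj, rfl⟩ := mem_image.1 hs
      rw [mem_Icc]
      exact ⟨(hf j hj).1.one_lt.le, (hf j hj).2⟩) (by
      intro s hs
      obtain ⟨j, hj, rfl⟩ := mem_image.1 hs
      exact (hf j hj).1) (by rw [hc]; exact hJ) g0 G hw.1 hw.2 hG
    rw [hc] at key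
    refine le_trans (le_of_eq ?_) key
    congr 2
    apply filter_congr
    intro g _
    have h1 : ((J.image f).filter (fun s => (primorial y * (g0 + g) - s ^ e).Prime)).card =
        (J.filter (fun j => (form true (primorial y * (g0 + g)) (f j ^ e)).Prime)).card := by
      rw [filter_image, card_image_of_injOn]
      · rfl
      · exact hi.mono (by
          intro j hj
          exact (mem_filter.1 (mem_coe.1 hj)).1)
    rw [h1]

open Classical in
theorem stepS (r : ℕ) : ∀ (sg : Fin r → Bool) (e : Fin r → ℕ), (∀ i, e i = 1 ∨ e i = 2) → ∀ (A B C : ℕ) (ε : ℝ), 0 < ε → ε ≤ 1 →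
    ∃ K0 : ℕ, ∀ K1 : ℕ, ∃ n0 : ℕ, ∀ n : ℕ, n0 ≤ n →
    ∀ y : ℕ, K0 * Real.log (Real.log n) ≤ y → y ≤ K1 * Real.log (Real.log n) →
    ∀ J : Finset ℕ, (n : ℝ) ≤ J.card * Real.log n ^ A → ∀ f : Fin r → ℕ → ℕ, (∀ i, Set.InjOn (f i) J) →
    (∀ i, ∀ j ∈ J, (f i j).Prime ∧ Bd (sg i) B n (f i j)) →
    ∀ g₀ G : Fin r → ℕ, (∀ i, Wi (sg i) (e i) (primorial y) n (g₀ i) (G i)) →
    (∀ i, (n : ℝ) ^ e i ≤ primorial y * G i * Real.log n ^ C) →
    (((Fintype.piFinset (fun i => Icc 1 (G i))).filter (fun g : Fin r → ℕ =>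
      ((J.filter (fun j => ∀ i, (form (sg i) (primorial y * (g₀ i + g i)) (f i j ^ e i)).Prime)).card : ℝ) <
      (1 - ε) * (J.card / ∏ i, (Vz y * (e i * Real.log n))))).card : ℝ) ≤ ε * ∏ i, (G i : ℝ) := by
  induction r with
  | zero =>
    intro sg e he A B C ε hε hε1
    refine ⟨0, fun K1 => ⟨0, fun n _ y _ _ J _ f _ _ g₀ G _ _ => ?_⟩⟩
    have h1 : (Fintype.piFinset (fun i : Fin 0 => Icc 1 (G i))).filter (fun g : Fin 0 → ℕ =>
      ((J.filter (fun j => ∀ i, (form (sg i) (primorial y * (g₀ i + g i)) (f i j ^ e i)).Prime)).card : ℝ) <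
      (1 - ε) * (J.card / ∏ i, (Vz y * (e i * Real.log n)))) = ∅ := by
      apply filter_false_of_mem
      intro g _
      push Not
      have h2 : J.filter (fun j => ∀ i : Fin 0, (form (sg i) (primorial y * (g₀ i + g i)) (f i j ^ e i)).Prime) = J := by
        apply filter_true_of_mem
        intro j _ i
        exact i.elim0
      rw [h2, Finset.univ_eq_empty, prod_empty, div_one]
      have : (0 : ℝ) ≤ J.card := Nat.cast_nonneg _
      nlinarith
    rw [h1]
    simp only [card_empty, Nat.cast_zero]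
    positivity
  | succ r ih =>
    intro sg e he A B C ε hε hε1
    obtain ⟨K0, hK0⟩ := stepB (sg 0) (e 0) (he 0) A B C (ε / 2) (by positivity) (by linarith)
    obtain ⟨K0', hK0'⟩ := ih (fun i => sg i.succ) (fun i => e i.succ) (fun i => he _) (A + 2) B C (ε / 2) (by positivity) (by linarith)
    refine ⟨max K0 K0', fun K1 => ?_⟩
    obtain ⟨n0, hn0⟩ := hK0 K1
    obtain ⟨n0', hn0'⟩ := hK0' K1
    obtain ⟨n1, hn1⟩ := ev_L' (max 4 (Real.exp 1))
    refine ⟨max n0 (max n0' n1), fun n hn y hy1 hy2 J hJ f hi hf g₀ G a1 a2 => ?_⟩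
    have b1 : n0 ≤ n := le_trans (le_max_left _ _) hn
    have b2 : n0' ≤ n := le_trans (le_trans (le_max_left _ _) (le_max_right _ _)) hn
    have b3 : n1 ≤ n := le_trans (le_trans (le_max_right _ _) (le_max_right _ _)) hn
    have hL' := hn1 n b3
    have hL : 4 ≤ Real.log n := (le_max_left _ _).trans hL'
    have hlL : 0 ≤ Real.log (Real.log n) := Real.log_nonneg (by linarith)
    have hy1a : (K0 : ℝ) * Real.log (Real.log n) ≤ y :=
      le_trans (mul_le_mul_of_nonneg_right (by exact_mod_cast le_max_left _ _) hlL) hy1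
    have hy1b : (K0' : ℝ) * Real.log (Real.log n) ≤ y :=
      le_trans (mul_le_mul_of_nonneg_right (by exact_mod_cast le_max_right _ _) hlL) hy1
    have k1 := hn0 n b1 y hy1a hy2 J hJ (f 0) (hi 0) (hf 0) (g₀ 0) (G 0) (a1 0) (a2 0)
    have hVy := Vz_pos y
    have hVy1 : Vz y ≤ 1 := Vz_le_one y
    have her : ∀ i, (0 : ℝ) < e i := by
      intro i
      rcases he i with h | h <;> rw [h] <;> norm_num
    have hL0 : 0 < Real.log n := by linarith
    obtain ⟨D, hD⟩ : ∃ D : ℝ, D = ∏ i : Fin r, (Vz y * (e i.succ * Real.log n)) := ⟨_, rfl⟩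
    have hD0 : 0 < D := by
      rw [hD]
      exact prod_pos fun i _ => mul_pos hVy (mul_pos (her _) hL0)
    have hprod : ∏ i : Fin (r + 1), (Vz y * (e i * Real.log n)) = (Vz y * (e 0 * Real.log n)) * D := by
      rw [Fin.prod_univ_succ, hD]
    obtain ⟨P, hP⟩ : ∃ P : ℕ → (Fin r → ℕ) → Prop, ∀ a b, P a b ↔
      ((J.filter (fun j => (form (sg 0) (primorial y * (g₀ 0 + a)) (f 0 j ^ e 0)).Prime ∧
        ∀ i : Fin r, (form (sg i.succ) (primorial y * (g₀ i.succ + b i)) (f i.succ j ^ e i.succ)).Prime)).card : ℝ) <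
        (1 - ε) * (J.card / ((Vz y * (e 0 * Real.log n)) * D)) := ⟨_, fun _ _ => Iff.rfl⟩
    have hT : (((Fintype.piFinset (fun i : Fin r => Icc 1 (G i.succ))).card : ℕ) : ℝ) =
        ∏ i : Fin r, (G i.succ : ℝ) := by
      rw [Fintype.card_piFinset]
      push_cast
      apply prod_congr rfl
      intro i _
      simp
    have hfub := fub (Icc 1 (G 0)) (Fintype.piFinset (fun i : Fin r => Icc 1 (G i.succ))) P
      ((Icc 1 (G 0)).filter (fun g => ((J.filter (fun j => (form (sg 0) (primorial y * (g₀ 0 + g)) (f 0 j ^ e 0)).Prime)).card : ℝ) <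
        (1 - ε / 2) * (J.card / (Vz y * (e 0 * Real.log n))))) (ε / 2) (ε / 2) (by positivity) (by
          refine k1.trans (le_of_eq ?_)
          simp) (by
        intro a ha hab
        have hge : (1 - ε / 2) * (J.card / (Vz y * (e 0 * Real.log n))) ≤
            ((J.filter (fun j => (form (sg 0) (primorial y * (g₀ 0 + a)) (f 0 j ^ e 0)).Prime)).card : ℝ) := by
          by_contra hcon
          push Not at hcon
          exact hab (mem_filter.2 ⟨ha, hcon⟩)
        obtain ⟨J', hJ'⟩ : ∃ J', J' = J.filter (fun j => (form (sg 0) (primorial y * (g₀ 0 + a)) (f 0 j ^ e 0)).Prime) := ⟨_, rfl⟩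
        rw [← hJ'] at hge
        have hsubJ : J' ⊆ J := by rw [hJ']; exact filter_subset _ _
        have hd := dens A (e 0) (he 0) n J.card J'.card (Real.log n) (Vz y) (ε / 2) hL hVy hVy1 (by linarith)
          (Nat.cast_nonneg _) hJ hge
        have k2 := hn0' n b2 y hy1b hy2 J' hd (fun i => f i.succ) (fun i => (hi _).mono (by exact_mod_cast hsubJ))
          (fun i j hj => hf _ j (hsubJ hj)) (fun i => g₀ i.succ) (fun i => G i.succ) (fun i => a1 _) (fun i => a2 _)
        rw [hT]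
        refine le_trans ?_ k2
        have hsub : (Fintype.piFinset (fun i : Fin r => Icc 1 (G i.succ))).filter (fun b => P a b) ⊆
            (Fintype.piFinset (fun i : Fin r => Icc 1 (G i.succ))).filter (fun g =>
              ((J'.filter (fun j => ∀ i : Fin r, (form (sg i.succ) (primorial y * (g₀ i.succ + g i)) (f i.succ j ^ e i.succ)).Prime)).card : ℝ) <
              (1 - ε / 2) * (J'.card / ∏ i : Fin r, (Vz y * (e i.succ * Real.log n)))) := by
          intro b hb
          rw [mem_filter] at hb ⊢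
          refine ⟨hb.1, ?_⟩
          have h3 := (hP a b).1 hb.2
          have h4 : J'.filter (fun j => ∀ i : Fin r, (form (sg i.succ) (primorial y * (g₀ i.succ + b i)) (f i.succ j ^ e i.succ)).Prime) =
              J.filter (fun j => (form (sg 0) (primorial y * (g₀ 0 + a)) (f 0 j ^ e 0)).Prime ∧
                ∀ i : Fin r, (form (sg i.succ) (primorial y * (g₀ i.succ + b i)) (f i.succ j ^ e i.succ)).Prime) := by
            rw [hJ', filter_filter]
          rw [h4, ← hD]
          refine lt_of_lt_of_le h3 ?_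
          have hV0 : 0 < Vz y * (e 0 * Real.log n) := mul_pos hVy (mul_pos (her _) hL0)
          have h5 : (1 - ε / 2) * (J.card / (Vz y * (e 0 * Real.log n))) / D ≤ J'.card / D :=
            div_le_div_of_nonneg_right hge hD0.le
          have h6 : (1 - ε / 2) * ((1 - ε / 2) * (J.card / (Vz y * (e 0 * Real.log n))) / D) ≤
              (1 - ε / 2) * (J'.card / D) := mul_le_mul_of_nonneg_left h5 (by linarith)
          refine le_trans ?_ h6
          have h7 : (1 - ε / 2) * ((1 - ε / 2) * ((J.card : ℝ) / (Vz y * (e 0 * Real.log n))) / D) =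
              (1 - ε / 2) ^ 2 * (J.card / ((Vz y * (e 0 * Real.log n)) * D)) := by
            field_simp
          rw [h7]
          apply mul_le_mul_of_nonneg_right _ (by positivity)
          nlinarith
        exact_mod_cast card_le_card hsub)
    rw [hT] at hfub
    have hR : (ε / 2 + ε / 2) * (((Icc 1 (G 0)).card : ℝ) * ∏ i : Fin r, (G i.succ : ℝ)) = ε * ∏ i, (G i : ℝ) := by
      rw [Fin.prod_univ_succ, Nat.card_Icc]
      simp
    rw [hR] at hfub
    refine le_trans ?_ hfub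
    rw [Nat.cast_le]
    apply card_le_card_of_injOn (fun g : Fin (r + 1) → ℕ => (g 0, fun i : Fin r => g i.succ))
    · intro g hg
      rw [mem_coe, mem_filter, Fintype.mem_piFinset] at hg
      rw [mem_coe, mem_filter, mem_product, Fintype.mem_piFinset]
      refine ⟨⟨hg.1 0, fun i => hg.1 _⟩, ?_⟩
      rw [hP]
      have h1 := hg.2
      rw [hprod] at h1
      refine lt_of_le_of_lt (le_of_eq ?_) h1
      congr 2
      apply filter_congr
      intro j _
      rw [Fin.forall_fin_succ]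
    · intro g _ g' _ h
      have h1 : g 0 = g' 0 := congrArg Prod.fst h
      have h2 : (fun i : Fin r => g i.succ) = fun i : Fin r => g' i.succ := congrArg Prod.snd h
      funext i
      refine Fin.cases h1 (fun j => congrFun h2 j) i

open Classical in
theorem stepSI {ι : Type} [Fintype ι] [DecidableEq ι] (sg : ι → Bool) (e : ι → ℕ) (he : ∀ i, e i = 1 ∨ e i = 2)
    (A B C : ℕ) (ε : ℝ) (hε : 0 < ε) (hε1 : ε ≤ 1) :
    ∃ K0 : ℕ, ∀ K1 : ℕ, ∃ n0 : ℕ, ∀ n : ℕ, n0 ≤ n →
    ∀ y : ℕ, K0 * Real.log (Real.log n) ≤ y → y ≤ K1 * Real.log (Real.log n) →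
    ∀ J : Finset ℕ, (n : ℝ) ≤ J.card * Real.log n ^ A → ∀ f : ι → ℕ → ℕ, (∀ i, Set.InjOn (f i) J) →
    (∀ i, ∀ j ∈ J, (f i j).Prime ∧ Bd (sg i) B n (f i j)) →
    ∀ g₀ G : ι → ℕ, (∀ i, Wi (sg i) (e i) (primorial y) n (g₀ i) (G i)) →
    (∀ i, (n : ℝ) ^ e i ≤ primorial y * G i * Real.log n ^ C) →
    (((Fintype.piFinset (fun i => Icc 1 (G i))).filter (fun g : ι → ℕ =>
      ((J.filter (fun j => ∀ i, (form (sg i) (primorial y * (g₀ i + g i)) (f i j ^ e i)).Prime)).card : ℝ) <
      (1 - ε) * (J.card / ∏ i, (Vz y * (e i * Real.log n))))).card : ℝ) ≤ ε * ∏ i, (G i : ℝ) := by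
  obtain ⟨w⟩ : Nonempty (ι ≃ Fin (Fintype.card ι)) := ⟨Fintype.equivFin ι⟩
  obtain ⟨K0, hK0⟩ := stepS (Fintype.card ι) (fun i => sg (w.symm i)) (fun i => e (w.symm i)) (fun i => he _) A B C ε
    hε hε1
  refine ⟨K0, fun K1 => ?_⟩
  obtain ⟨n0, hn0⟩ := hK0 K1
  refine ⟨n0, fun n hn y hy1 hy2 J hJ f hi hf g₀ G a1 a2 => ?_⟩
  have key := hn0 n hn y hy1 hy2 J hJ (fun i => f (w.symm i)) (fun i => hi _) (fun i => hf _) (fun i => g₀ (w.symm i))
    (fun i => G (w.symm i)) (fun i => a1 _) (fun i => a2 _)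
  have e1 : ∏ i : Fin (Fintype.card ι), (G (w.symm i) : ℝ) = ∏ i, (G i : ℝ) :=
    Equiv.prod_comp w.symm (fun i => (G i : ℝ))
  have e2 : ∏ i : Fin (Fintype.card ι), (Vz y * (e (w.symm i) * Real.log n)) = ∏ i, (Vz y * (e i * Real.log n)) :=
    Equiv.prod_comp w.symm (fun i => (Vz y * (e i * Real.log n)))
  rw [e1] at key
  refine le_trans ?_ key
  rw [Nat.cast_le]
  apply card_le_card_of_injOn (fun (g : ι → ℕ) (i : Fin (Fintype.card ι)) => g (w.symm i))
  · intro g hg
    rw [mem_coe, mem_filter, Fintype.mem_piFinset] at hg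
    rw [mem_coe, mem_filter, Fintype.mem_piFinset]
    refine ⟨fun i => hg.1 _, ?_⟩
    have h1 := hg.2
    rw [e2]
    refine lt_of_le_of_lt (le_of_eq ?_) h1
    congr 2
    apply filter_congr
    intro j _
    constructor
    · intro h i
      have := h (w i)
      simpa using this
    · intro h i
      exact h _
  · intro g _ g' _ h
    funext i
    have := congrFun h (w i)
    simpa using this

end Pool.Agent.X28.SX
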