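import Mathlib
import Pool.Agent.X28.SX.StepS
import Pool.Agent.X28.SX.StepI
import Pool.Agent.Y886.UTA

/-! Iterated primes: elementary facts and the number of indices. -/

set_option autoImplicit false

namespace Pool.Agent.X28.SX
open Finset Pool.Agent.H373R2.T7
open Pool.Agent.TH665.GP (ff exists_index)

lemma ff_prime (k : ℕ) : (ff k).Prime := Nat.prime_nth_prime _

lemma ff_gt {k : ℕ} (hk : 1 ≤ k) : k < ff k := by
  have h := Nat.add_two_le_nth_prime (k - 1)
  unfold ff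
  omega

lemma ff_inj {a b : ℕ} (ha : 1 ≤ a) (hb : 1 ≤ b) (h : ff a = ff b) : a = b := nth_inj' ha hb h

lemma it_ge (i : ℕ) {u : ℕ} (hu : 1 ≤ u) : u ≤ ff^[i] u := by
  induction i with
  | zero => exact le_refl _
  | succ i ih =>
    rw [Function.iterate_succ_apply']
    exact ih.trans (ff_gt (hu.trans ih)).le

lemma it_mono {i j : ℕ} (hij : i ≤ j) {u : ℕ} (hu : 1 ≤ u) : ff^[i] u ≤ ff^[j] u := by
  obtain ⟨d, rfl⟩ := Nat.exists_eq_add_of_le hij
  rw [add_comm, Function.iterate_add_apply]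
  exact it_ge d (hu.trans (it_ge i hu))

lemma it_prime (i u : ℕ) : (ff^[i + 1] u).Prime := by
  rw [Function.iterate_succ_apply']
  exact ff_prime _

lemma it_inj (i : ℕ) {a b : ℕ} (ha : 1 ≤ a) (hb : 1 ≤ b) (h : ff^[i] a = ff^[i] b) : a = b := by
  induction i with
  | zero => exact h
  | succ i ih =>
    rw [Function.iterate_succ_apply', Function.iterate_succ_apply'] at h
    exact ih (ff_inj (ha.trans (it_ge i ha)) (hb.trans (it_ge i hb)) h)

/-- the number of the indices `u` for which the `u`-th `m`-prime is at most `X` -/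
theorem it_low : ∃ c : ℝ, 0 < c ∧ ∀ m : ℕ, ∃ X0 : ℕ, ∀ X : ℕ, X0 ≤ X →
    c ^ (m + 1) * X / Real.log X ^ (m + 1) ≤ (((Icc 1 X).filter (fun u => ff^[m + 1] u ≤ X)).card : ℝ) := by
  classical
  obtain ⟨c, hc, -, hd⟩ := Pool.Agent.Y886.UT.dens
  refine ⟨c / 2, by positivity, fun m => ?_⟩
  obtain ⟨n1, hn1⟩ := ev_log' (m + 1) ((2 / c) ^ (m + 1))
  obtain ⟨n2, hn2⟩ := ev_L' 1
  refine ⟨max n1 (max n2 2), fun X hX => ?_⟩
  have b1 : n1 ≤ X := (le_max_left _ _).trans hX
  have b2 : n2 ≤ X := ((le_max_left _ _).trans (le_max_right _ _)).trans hX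
  have b3 : 2 ≤ X := ((le_max_right _ _).trans (le_max_right _ _)).trans hX
  have hL := hn2 X b2
  have h1 := hn1 X b1
  have hX1 : (1 : ℝ) ≤ X := by exact_mod_cast (by omega : 1 ≤ X)
  have hsq : √(X : ℝ) ≤ X := by
    rw [Real.sqrt_le_left (by linarith)]
    nlinarith
  obtain ⟨S, hS, hSP, hSc⟩ := hd m X b3
  have hcard : S.card ≤ ((Icc 1 X).filter (fun u => ff^[m + 1] u ≤ X)).card := by
    have hex : ∀ p : ℕ, ∃ u : ℕ, p ∈ S → 0 < u ∧ ff^[m + 1] u = p := by
      intro p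
      by_cases hp : p ∈ S
      · obtain ⟨u, hu, hu2⟩ := exists_index (hSP p hp)
        exact ⟨u, fun _ => ⟨hu, hu2⟩⟩
      · exact ⟨0, fun h => absurd h hp⟩
    choose v hv using hex
    apply card_le_card_of_injOn v
    · intro p hp
      rw [mem_coe] at hp
      obtain ⟨h2, h3⟩ := hv p hp
      have h4 := mem_Icc.1 (hS hp)
      rw [mem_coe, mem_filter, mem_Icc, h3]
      have h5 := it_ge (m + 1) (u := v p) h2
      rw [h3] at h5
      exact ⟨⟨h2, h5.trans h4.2⟩, h4.2⟩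
    · intro p hp q hq hpq
      rw [mem_coe] at hp hq
      rw [← (hv p hp).2, ← (hv q hq).2, hpq]
  have hcr : (S.card : ℝ) ≤ (((Icc 1 X).filter (fun u => ff^[m + 1] u ≤ X)).card : ℝ) := by exact_mod_cast hcard
  refine le_trans ?_ hcr
  have hLp : 0 < Real.log X ^ (m + 1) := by positivity
  rw [div_le_iff₀ hLp]
  have h6 : Real.log X ^ (m + 1) ≤ (c / 2) ^ (m + 1) * X := by
    have h7 : (c / 2) ^ (m + 1) * ((2 / c) ^ (m + 1) * Real.log X ^ (m + 1)) ≤ (c / 2) ^ (m + 1) * X :=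
      mul_le_mul_of_nonneg_left (h1.trans hsq) (by positivity)
    have h8 : (c / 2) ^ (m + 1) * ((2 / c) ^ (m + 1) * Real.log X ^ (m + 1)) = Real.log X ^ (m + 1) := by
      rw [← mul_assoc, ← mul_pow]
      have : c / 2 * (2 / c) = 1 := by field_simp
      rw [this, one_pow, one_mul]
    rwa [h8] at h7
  have h9 : 2 * (c / 2) ^ (m + 1) ≤ c ^ (m + 1) := by
    rw [div_pow, pow_succ (2 : ℝ) m]
    have h10 : (1 : ℝ) ≤ 2 ^ m := one_le_pow₀ (by norm_num)
    have h11 : 0 < c ^ (m + 1) := by positivity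
    rw [mul_div_assoc']
    rw [div_le_iff₀ (by positivity)]
    nlinarith
  have h12 : 2 * (c / 2) ^ (m + 1) * X ≤ c ^ (m + 1) * X := mul_le_mul_of_nonneg_right h9 (by linarith)
  nlinarith

end Pool.Agent.X28.SX
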